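import Pool.Agent.Helper95.AU.Defs
import Pool.Agent.Helper68.AF.Core
import Pool.Agent.Helper8.AF.Five
import Pool.Agent.Helper35.AF.FormInt
import Pool.Agent.Helper44.AF.Good

/-! # Project AU (MP_9ee088_an), block U1: the loss at a junction with five noise steps -/

set_option autoImplicit false
open MeasureTheory Real Set Filter Topology
open scoped ENNReal

namespace Pool.Agent.Helper44.AU

open Pool.Agent.Helper18.UC (nn LL sqo rep toT nn_nonneg nn_mul)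
open Pool.Agent.Helper46.QP (TT Td)
open Pool.Agent.Helper82.AN (Ow lawL eta Hw sq SepR)
open Pool.Agent.Helper95.AF (st po mt pM shb Fa gA up5 un5 frc DC Ho nv ip)
open Pool.Agent.Helper95.AU (lo)
open Pool.Agent.Helper68.AF
open Pool.Agent.Helper44.AF (nn_ge1 vol_sqo ip_pos)

theorem nn_mt (a x : ℝ) : nn (mt a x) ≤ 7 * (|a| + 1) := by
  have hπ := Real.pi_lt_d2
  have hπ0 := Real.pi_pos
  have he1 : |2 + 2 * π * a * Real.cos (2 * π * x)| ≤ 2 + 2 * π * |a| := by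
    refine (abs_add_le _ _).trans ?_
    rw [abs_of_pos (by norm_num : (0:ℝ) < 2), abs_mul, abs_mul, abs_of_pos (by positivity : 0 < 2 * π)]
    have h1 := Real.abs_cos_le_one (2 * π * x)
    have h2 : 2 * π * |a| * |Real.cos (2 * π * x)| ≤ 2 * π * |a| * 1 := by gcongr
    linarith
  have e : nn (mt a x) = |2 + 2 * π * a * Real.cos (2 * π * x)| + 1 + 1 := by
    unfold nn Pool.Agent.Helper95.AF.mt
    simp
  rw [e]
  nlinarith [abs_nonneg a]

theorem nn_mt_mul (a x : ℝ) (M : Matrix (Fin 2) (Fin 2) ℝ) : nn (mt a x * M) ≤ 7 * (|a| + 1) * nn M :=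
  (nn_mul _ _).trans (mul_le_mul_of_nonneg_right (nn_mt a x) (nn_nonneg _))

/-- the larger column -/
theorem col_big (M : Matrix (Fin 2) (Fin 2) ℝ) : ∃ j : Fin 2, nn M ≤ 2 * nv (fun i => M i j) := by
  by_cases h : |M 0 1| + |M 1 1| ≤ |M 0 0| + |M 1 0|
  · refine ⟨0, ?_⟩
    unfold nn nv
    linarith
  · refine ⟨1, ?_⟩
    unfold nn nv
    linarith

/-- the form of the chosen row and a column is at most the size of the product -/
theorem form_le (a : ℝ) (b : ℕ → ℝ) (n : ℕ) (M : Matrix (Fin 2) (Fin 2) ℝ) (j : Fin 2) (x1 x2 x3 : ℝ) (w : ℝ × ℝ) :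
    |∑ i, W68 a b n w i * ((mt a x3 * mt a x2 * mt a x1).mulVec (fun i => M i j)) i| ≤
      nn (pM a b n w * (mt a w.2 * (mt a x3 * (mt a x2 * (mt a x1 * M))))) := by
  set T := mt a x3 * mt a x2 * mt a x1 with hT
  have e : pM a b n w * (mt a w.2 * (mt a x3 * (mt a x2 * (mt a x1 * M)))) = (pM a b n w * mt a w.2) * (T * M) := by
    rw [hT]
    simp only [mul_assoc]
  rw [e]
  have hi : ∀ i : Fin 2, |∑ l, row68 a (pM a b n w) w.2 i l * (T.mulVec (fun i => M i j)) l| ≤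
      nn ((pM a b n w * mt a w.2) * (T * M)) := by
    intro i
    have h1 : ∑ l, row68 a (pM a b n w) w.2 i l * (T.mulVec (fun i => M i j)) l =
        ((pM a b n w * mt a w.2) * (T * M)) i j := rfl
    rw [h1]
    unfold nn
    have e0 := abs_nonneg (((pM a b n w * mt a w.2) * (T * M)) 0 0)
    have e1 := abs_nonneg (((pM a b n w * mt a w.2) * (T * M)) 0 1)
    have e2 := abs_nonneg (((pM a b n w * mt a w.2) * (T * M)) 1 0)
    have e3 := abs_nonneg (((pM a b n w * mt a w.2) * (T * M)) 1 1)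
    fin_cases i <;> fin_cases j <;> simp only [Fin.zero_eta, Fin.mk_one, Fin.isValue] <;> linarith
  by_cases h : nv (row68 a (pM a b n w) w.2 1) ≤ nv (row68 a (pM a b n w) w.2 0)
  · have e1 : ∀ j, W68 a b n w j = row68 a (pM a b n w) w.2 0 j := fun j => if_pos h
    simp only [e1]
    exact hi 0
  · have e1 : ∀ j, W68 a b n w j = row68 a (pM a b n w) w.2 1 j := fun j => if_neg h
    simp only [e1]
    exact hi 1

/-- the exponential of a quarter of the loss -/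
theorem loss_le {X Y Z c v w F : ℝ} (hX : 0 < X) (hY : 0 < Y) (hZ : 0 < Z) (hc : 0 ≤ c) (hv : 0 ≤ v) (hw : 0 ≤ w)
    (hXY : X * Y ≤ c * (w * v)) (hF : F ≤ Z) :
    ENNReal.ofReal (Real.exp ((Real.log X + Real.log Y - Real.log Z) / 4)) ≤
      ENNReal.ofReal (c ^ (1 / 4 : ℝ)) * (ENNReal.ofReal (w * v) ^ (1 / 4 : ℝ) * ip (1 / 4) F) := by
  have e : Real.exp ((Real.log X + Real.log Y - Real.log Z) / 4) = (X * Y) ^ (1 / 4 : ℝ) * Z ^ (-(1 / 4) : ℝ) := by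
    rw [Real.rpow_def_of_pos (by positivity), Real.rpow_def_of_pos hZ, ← Real.exp_add,
      Real.log_mul hX.ne' hY.ne']
    congr 1
    ring
  rw [e, ENNReal.ofReal_mul (by positivity), ← ip_pos hZ]
  have h1 : ENNReal.ofReal ((X * Y) ^ (1 / 4 : ℝ)) ≤ ENNReal.ofReal (c ^ (1 / 4 : ℝ)) * ENNReal.ofReal (w * v) ^ (1 / 4 : ℝ) := by
    rw [ENNReal.ofReal_rpow_of_nonneg (mul_nonneg hw hv) (by norm_num), ← ENNReal.ofReal_mul (Real.rpow_nonneg hc _),
      ← Real.mul_rpow hc (mul_nonneg hw hv)]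
    exact ENNReal.ofReal_le_ofReal (Real.rpow_le_rpow (by positivity) hXY (by norm_num))
  calc ENNReal.ofReal ((X * Y) ^ (1 / 4 : ℝ)) * ip (1 / 4) Z
      ≤ (ENNReal.ofReal (c ^ (1 / 4 : ℝ)) * ENNReal.ofReal (w * v) ^ (1 / 4 : ℝ)) * ip (1 / 4) F :=
        mul_le_mul' h1 (ip_anti68 (by norm_num) hF)
    _ = _ := by rw [mul_assoc]

/-- the cocycle before the junction -/
theorem pre_le (a : ℝ) (b : ℕ → ℝ) (m : ℕ) (s : ℝ) (t : Fin 5 → ℝ) (q : ℝ × ℝ) :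
    nn (pM a (up5 b m s t) (m + 5) q) ≤ (7 * (|a| + 1)) ^ 4 * nn (mt a (po a b m q).1 * pM a b m q) := by
  have e2 : pM a (up5 b m s t) m q = pM a b m q := pM_congr68 (fun j hj => up5_out68 (Or.inl hj)) _
  have e3 : po a (up5 b m s t) m q = po a b m q := po_congr68 (fun j hj => up5_out68 (Or.inl hj)) _
  have e4 : pM a (up5 b m s t) (m + 5) q = mt a (po a (up5 b m s t) (m + 4) q).1 * (mt a (po a (up5 b m s t) (m + 3) q).1 *
      (mt a (po a (up5 b m s t) (m + 2) q).1 * (mt a (po a (up5 b m s t) (m + 1) q).1 *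
        (mt a (po a (up5 b m s t) m q).1 * pM a (up5 b m s t) m q)))) := rfl
  rw [e4, e2, e3]
  set M := mt a (po a b m q).1 * pM a b m q
  have hk : 0 ≤ 7 * (|a| + 1) := by positivity
  have h1 := nn_mt_mul a (po a (up5 b m s t) (m + 1) q).1 M
  have h2 := nn_mt_mul a (po a (up5 b m s t) (m + 2) q).1 (mt a (po a (up5 b m s t) (m + 1) q).1 * M)
  have h3 := nn_mt_mul a (po a (up5 b m s t) (m + 3) q).1
    (mt a (po a (up5 b m s t) (m + 2) q).1 * (mt a (po a (up5 b m s t) (m + 1) q).1 * M))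
  have h4 := nn_mt_mul a (po a (up5 b m s t) (m + 4) q).1
    (mt a (po a (up5 b m s t) (m + 3) q).1 * (mt a (po a (up5 b m s t) (m + 2) q).1 * (mt a (po a (up5 b m s t) (m + 1) q).1 * M)))
  refine h4.trans ?_
  have h5 := mul_le_mul_of_nonneg_left h3 hk
  have h6 := mul_le_mul_of_nonneg_left (mul_le_mul_of_nonneg_left h2 hk) hk
  have h7 := mul_le_mul_of_nonneg_left (mul_le_mul_of_nonneg_left (mul_le_mul_of_nonneg_left h1 hk) hk) hk
  calc _ ≤ _ := h5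
    _ ≤ _ := h6
    _ ≤ _ := h7
    _ = _ := by ring

/-- the integrand, as a function of the three positions and the end point -/
noncomputable def Ps (a : ℝ) (b : ℕ → ℝ) (n : ℕ) (V : Fin 2 → ℝ) (u : ℝ × ℝ × ℝ × (ℝ × ℝ)) : ℝ≥0∞ :=
  ENNReal.ofReal (nv (W68 a b n u.2.2.2) * nv V) ^ (1 / 4 : ℝ) * Ph68 (1 / 4) a b n V u.1 u.2.1 u.2.2.1 u.2.2.2

theorem Ps_meas (a : ℝ) (b : ℕ → ℝ) (n : ℕ) (V : Fin 2 → ℝ) : Measurable (Ps a b n V) := by
  unfold Ps
  refine Measurable.mul ?_ (Ph_meas68 (1 / 4) a b n V)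
  refine (ENNReal.measurable_ofReal.comp ?_).pow_const _
  refine Measurable.mul_const ?_ _
  unfold nv
  have h : ∀ i : Fin 2, Measurable fun u : ℝ × ℝ × ℝ × (ℝ × ℝ) => W68 a b n u.2.2.2 i := fun i =>
    (W_meas68 a b n i).comp (by fun_prop)
  exact (h 0).norm.add (h 1).norm

/-- pointwise -/
theorem pt_le (a : ℝ) (b : ℕ → ℝ) (m : ℕ) (s : ℝ) (t : Fin 5 → ℝ) (q : ℝ × ℝ) (j : Fin 2)
    (hj : nn (mt a (po a b m q).1 * pM a b m q) ≤ 2 * nv (fun i => (mt a (po a b m q).1 * pM a b m q) i j)) :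
    ENNReal.ofReal (Real.exp (lo a (up5 b m s t) (m + 5) q / 4)) ≤
      ENNReal.ofReal ((28 * 7 ^ 4 * (|a| + 1) ^ 5) ^ (1 / 4 : ℝ)) *
        Ps a (shb b (m + 5)) (m + 5) (fun i => (mt a (po a b m q).1 * pM a b m q) i j)
          ((po a (up5 b m s t) (m + 1) q).1, (po a (up5 b m s t) (m + 2) q).1, (po a (up5 b m s t) (m + 3) q).1,
            po a (up5 b m s t) (m + 5) q) := by
  set M := mt a (po a b m q).1 * pM a b m q with hM
  set V : Fin 2 → ℝ := fun i => M i j with hV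
  set w := po a (up5 b m s t) (m + 5) q with hw
  have e1 : pM a (shb (up5 b m s t) (m + 5)) (m + 5) w = pM a (shb b (m + 5)) (m + 5) w := by
    refine pM_congr68 (fun j _ => ?_) _
    exact up5_out68 (Or.inr (by omega))
  have e2 : 2 * (m + 5) = m + 5 + (m + 5) := by ring
  unfold lo Ps Ph68
  rw [← hw, e1, e2, split68, ← hw]
  have h3 : (po a (up5 b m s t) (m + 4) q).1 = w.2 := rfl
  rw [h3, ← hM]
  refine loss_le ?_ ?_ ?_ (by positivity) (nv_nonneg68 _) (nv_nonneg68 _) ?_ ?_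
  · have := nn_ge1 a (up5 b m s t) (m + 5) q
    linarith
  · have := nn_ge1 a (shb b (m + 5)) (m + 5) w
    linarith
  · have := nn_ge1 a (up5 b m s t) (m + 5 + (m + 5)) q
    rw [split68, ← hw, h3, ← hM] at this
    linarith
  · have h5 := pre_le a b m s t q
    rw [← hM] at h5
    have h6 := W_big68 a (shb b (m + 5)) (m + 5) w
    have h7 : (7 * (|a| + 1)) ^ 4 * nn M ≤ (7 * (|a| + 1)) ^ 4 * (2 * nv V) := mul_le_mul_of_nonneg_left hj (by positivity)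
    calc nn (pM a (up5 b m s t) (m + 5) q) * nn (pM a (shb b (m + 5)) (m + 5) w)
        ≤ ((7 * (|a| + 1)) ^ 4 * (2 * nv V)) * (14 * (|a| + 1) * nv (W68 a (shb b (m + 5)) (m + 5) w)) :=
          mul_le_mul (h5.trans h7) h6 (nn_nonneg _) (mul_nonneg (by positivity) (mul_nonneg (by norm_num) (nv_nonneg68 _)))
      _ = _ := by ring
  · exact form_le a (shb b (m + 5)) (m + 5) M j _ _ _ w

/-- the mean over the three positions -/
theorem in_le {K : ℝ} (hK1 : 1 ≤ K) (hK : ∀ (a R p : ℝ) (c : Fin 3 → ℝ) (W V : Fin 2 → ℝ), 1 ≤ |a| → 0 < R → R ≤ 1 / 2 →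
      0 < p → p ≤ 1 / 4 →
      ∫⁻ x₁ in Icc (c 0 - R) (c 0 + R), ∫⁻ x₂ in Icc (c 1 - R) (c 1 + R), ∫⁻ x₃ in Icc (c 2 - R) (c 2 + R),
        ip p |∑ i, W i * ((mt a x₃ * mt a x₂ * mt a x₁).mulVec V) i| ≤
        ENNReal.ofReal ((2 * R) ^ 3 * (K / R) ^ (12 * p)) * ip p (nv W * nv V))
    {a ρ : ℝ} (ha : 1 ≤ |a|) (h0 : 0 < ρ) (h1 : ρ ≤ 1) (b : ℕ → ℝ) (n : ℕ) (V : Fin 2 → ℝ) (hV : 0 < nv V) (c : Fin 3 → ℝ)
    (w : ℝ × ℝ) :
    ∫⁻ x₁ in Icc (c 0 - ρ / 2) (c 0 + ρ / 2), ∫⁻ x₂ in Icc (c 1 - ρ / 2) (c 1 + ρ / 2),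
      ∫⁻ x₃ in Icc (c 2 - ρ / 2) (c 2 + ρ / 2), Ps a b n V (x₁, x₂, x₃, w) ≤ ENNReal.ofReal (8 * K ^ 3) := by
  have hW : 0 < nv (W68 a b n w) := by
    have h2 := W_big68 a b n w
    have h3 := nn_ge1 a b n w
    by_contra h4
    have h5 : 14 * (|a| + 1) * nv (W68 a b n w) ≤ 0 := mul_nonpos_of_nonneg_of_nonpos (by positivity) (not_lt.1 h4)
    linarith
  have hWV : 0 < nv (W68 a b n w) * nv V := mul_pos hW hV
  set κ : ℝ≥0∞ := ENNReal.ofReal (nv (W68 a b n w) * nv V) ^ (1 / 4 : ℝ) with hκ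
  have hκt : κ ≠ ∞ := ENNReal.rpow_ne_top_of_nonneg (by norm_num) ENNReal.ofReal_ne_top
  have hmain := hK a (ρ / 2) (1 / 4) c (W68 a b n w) V ha (by linarith) (by linarith) (by norm_num) le_rfl
  have e1 : ∀ x₁ x₂ x₃, Ps a b n V (x₁, x₂, x₃, w) =
      κ * ip (1 / 4) |∑ i, W68 a b n w i * ((mt a x₃ * mt a x₂ * mt a x₁).mulVec V) i| := fun _ _ _ => rfl
  simp only [e1]
  simp only [lintegral_const_mul' _ _ hκt]
  have e2 : κ * ip (1 / 4) (nv (W68 a b n w) * nv V) = 1 := by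
    rw [hκ]
    unfold ip
    rw [← ENNReal.rpow_add _ _ (by simpa using hWV) ENNReal.ofReal_ne_top]
    norm_num
  calc κ * _ ≤ κ * (ENNReal.ofReal ((2 * (ρ / 2)) ^ 3 * (K / (ρ / 2)) ^ (12 * (1 / 4) : ℝ)) *
        ip (1 / 4) (nv (W68 a b n w) * nv V)) := mul_le_mul' le_rfl hmain
    _ = ENNReal.ofReal ((2 * (ρ / 2)) ^ 3 * (K / (ρ / 2)) ^ (12 * (1 / 4) : ℝ)) *
        (κ * ip (1 / 4) (nv (W68 a b n w) * nv V)) := by ring
    _ = ENNReal.ofReal (8 * K ^ 3) := by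
        rw [e2, mul_one]
        congr 1
        rw [show (12 * (1 / 4) : ℝ) = ((3 : ℕ) : ℝ) by norm_num, Real.rpow_natCast]
        field_simp
        norm_num

/-- **U1**: the loss at a junction with five noise steps, for every starting point -/
theorem junc : ∃ C : ℝ, 1 ≤ C ∧ ∀ (a ρ : ℝ) (m : ℕ) (b : ℕ → ℝ) (q : ℝ × ℝ), 1 ≤ |a| → 0 < ρ → ρ ≤ 1 →
    ∫⁻ t, ENNReal.ofReal (Real.exp (lo a (up5 b m (ρ / (10 * (|a| + 1)) ^ 5) t) (m + 5) q / 4)) ∂un5 ≤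
      ENNReal.ofReal ((C * (|a| + 1) / ρ) ^ 40) := by
  obtain ⟨K, hK1, hK⟩ := Pool.Agent.Helper35.AF.form_int
  refine ⟨100 * K, by linarith, ?_⟩
  intro a ρ m b q ha h0 h1
  obtain ⟨c, κ, hfive⟩ := Pool.Agent.Helper8.AF.five (a := a) (ρ := ρ) h0 rfl b m q
  set s : ℝ := ρ / (10 * (|a| + 1)) ^ 5 with hs
  obtain ⟨j, hj⟩ := col_big (mt a (po a b m q).1 * pM a b m q)
  set V : Fin 2 → ℝ := fun i => (mt a (po a b m q).1 * pM a b m q) i j with hV
  have hVpos : 0 < nv V := by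
    have h2 := nn_ge1 a b (m + 1) q
    have h3 : pM a b (m + 1) q = mt a (po a b m q).1 * pM a b m q := rfl
    rw [h3] at h2
    linarith
  set D : ℝ := 28 * 7 ^ 4 * (|a| + 1) ^ 5 with hD
  have hA : 2 ≤ |a| + 1 := by linarith
  set A : ℝ := |a| + 1 with hAdef
  calc ∫⁻ t, ENNReal.ofReal (Real.exp (lo a (up5 b m s t) (m + 5) q / 4)) ∂un5
      ≤ ∫⁻ t, ENNReal.ofReal (D ^ (1 / 4 : ℝ)) * Ps a (shb b (m + 5)) (m + 5) V
          ((po a (up5 b m s t) (m + 1) q).1, (po a (up5 b m s t) (m + 2) q).1, (po a (up5 b m s t) (m + 3) q).1,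
            po a (up5 b m s t) (m + 5) q) ∂un5 := lintegral_mono fun t => pt_le a b m s t q j hj
    _ ≤ ENNReal.ofReal s⁻¹ ^ 5 * ∫⁻ w in sqo κ ρ, ∫⁻ x₁ in Icc (c 0 - ρ / 2) (c 0 + ρ / 2),
        ∫⁻ x₂ in Icc (c 1 - ρ / 2) (c 1 + ρ / 2), ∫⁻ x₃ in Icc (c 2 - ρ / 2) (c 2 + ρ / 2),
          ENNReal.ofReal (D ^ (1 / 4 : ℝ)) * Ps a (shb b (m + 5)) (m + 5) V (x₁, x₂, x₃, w) :=
        hfive (fun u => ENNReal.ofReal (D ^ (1 / 4 : ℝ)) * Ps a (shb b (m + 5)) (m + 5) V u)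
          ((Ps_meas a (shb b (m + 5)) (m + 5) V).const_mul _)
    _ ≤ ENNReal.ofReal s⁻¹ ^ 5 * ∫⁻ w in sqo κ ρ, ENNReal.ofReal (D ^ (1 / 4 : ℝ)) * ENNReal.ofReal (8 * K ^ 3) := by
        gcongr with w
        simp only [lintegral_const_mul' _ _ ENNReal.ofReal_ne_top]
        gcongr
        exact in_le hK1 hK ha h0 h1 (shb b (m + 5)) (m + 5) V hVpos c w
    _ = ENNReal.ofReal (((10 * A) ^ 5 / ρ) ^ 5 * (D ^ (1 / 4 : ℝ) * (8 * K ^ 3) * ρ ^ 2)) := by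
        rw [lintegral_const, Measure.restrict_apply MeasurableSet.univ, univ_inter, vol_sqo κ h0.le,
          ← ENNReal.ofReal_pow (by positivity), ← ENNReal.ofReal_mul (by positivity), ← ENNReal.ofReal_mul (by positivity),
          ← ENNReal.ofReal_mul (by positivity)]
        rw [hs, inv_div]
    _ ≤ ENNReal.ofReal ((100 * K * A / ρ) ^ 40) := by
        apply ENNReal.ofReal_le_ofReal
        have hD1 : D ^ (1 / 4 : ℝ) ≤ 100 * A ^ 2 := by
          have hD2 : D ≤ (100 * A ^ 2) ^ (4 : ℝ) := by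
            rw [show (4 : ℝ) = ((4 : ℕ) : ℝ) by norm_num, Real.rpow_natCast, hD]
            have h5 : (1:ℝ) ≤ A := by linarith
            have h6 : A ^ 5 ≤ A ^ 8 := pow_le_pow_right₀ h5 (by norm_num)
            have h7 : (0:ℝ) ≤ A ^ 8 := by positivity
            nlinarith
          calc D ^ (1 / 4 : ℝ) ≤ ((100 * A ^ 2) ^ (4 : ℝ)) ^ (1 / 4 : ℝ) := Real.rpow_le_rpow (by positivity) hD2 (by norm_num)
            _ = 100 * A ^ 2 := by
              rw [← Real.rpow_mul (by positivity)]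
              norm_num
        have hρ1 : 1 ≤ 1 / ρ := by rw [le_div_iff₀ h0]; linarith
        have hKK : K ^ 3 ≤ K ^ 40 := pow_le_pow_right₀ hK1 (by norm_num)
        have hAA : A ^ 27 ≤ A ^ 40 := pow_le_pow_right₀ (by linarith) (by norm_num)
        have hρρ : (1 / ρ) ^ 3 ≤ (1 / ρ) ^ 40 := pow_le_pow_right₀ hρ1 (by norm_num)
        calc ((10 * A) ^ 5 / ρ) ^ 5 * (D ^ (1 / 4 : ℝ) * (8 * K ^ 3) * ρ ^ 2)
            ≤ ((10 * A) ^ 5 / ρ) ^ 5 * ((100 * A ^ 2) * (8 * K ^ 3) * ρ ^ 2) := by gcongr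
          _ = (10 ^ 25 * 800) * (K ^ 3 * (A ^ 27 * (1 / ρ) ^ 3)) := by
              field_simp
              norm_num
          _ ≤ (10 ^ 25 * 800) * (K ^ 40 * (A ^ 40 * (1 / ρ) ^ 40)) := by gcongr
          _ ≤ 100 ^ 40 * (K ^ 40 * (A ^ 40 * (1 / ρ) ^ 40)) := by
              gcongr
              norm_num
          _ = (100 * K * A / ρ) ^ 40 := by
              rw [div_eq_mul_one_div (100 * K * A) ρ, mul_pow, mul_pow, mul_pow]
              ring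

end Pool.Agent.Helper44.AU

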